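import Pool.Agent.Helper72.AI.Assembly

/-!
# The minimal affine inclusion ratio of two planar convex figures is `3√3/(4π)`
(MP_870acd_co, Q1)

Outline of the proof. (1) Blaschke: `|T| ≥ κ|G|` for a maximum-area triangle `T` of `G`, with equality
only for ellipses, where `κ = 3√3/(4π)`. (2) Let `T` be a maximum-area triangle of `F` with `|T| = 1`
and let `t_i` be the extents of `F` beyond the sides of `T`, `s = t_1 + t_2 + t_3`. Then `F` lies in the
hexagon `H_t = {-t_i ≤ λ_i ≤ 1}`, `|F| ≥ 1 + s` and `1 + s < 1/κ`. (3) If `s ≥ 0.654`: every convex `G`
has an inscribed affine image of any given centrally symmetric hexagon, and an area estimate for the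
parts of `G` outside of it gives a large copy of `H_t` in `G`. (4) If `0 < s ≤ 0.654`: star shaped
placements of `H_t` with respect to a maximum-area triangle of `G` and the points where its medians
leave `G`, averaged over the six assignments of the vertices. (5) `s = 0` means that `F` is a triangle,
which is Blaschke's theorem.
-/

set_option autoImplicit false

namespace Pool.Agent.Results.MP_870acd_co.MinimalInclusionRatio

open AffInc

/-- **Solution of Grunbaum's problem.** `m* = 3√3/(4π)`; the value `f F G` is the maximum of the area
ratios (it is attained); `f F G = m*` holds exactly when `F` is a triangle and `G` is an ellipse, and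
such pairs exist. -/
theorem result :
    mStar = 3 * Real.sqrt 3 / (4 * Real.pi) ∧
    (∀ F G : Set Plane, ConvexFigure F → ConvexFigure G →
      IsGreatest (ratios F G) (f F G) ∧
      (f F G = mStar ↔ IsTriangle F ∧ IsEllipse G)) ∧
    (∃ F G : Set Plane, ConvexFigure F ∧ ConvexFigure G ∧ IsTriangle F ∧ IsEllipse G ∧
      f F G = mStar) :=
  final attain_all main_all conv_all

end Pool.Agent.Results.MP_870acd_co.MinimalInclusionRatio
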